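import Pool.Agent.N520.SV.Stm

/-!
Project SV: lifts of singular simplices to the cover.
-/

set_option autoImplicit false

open Set Filter Topology

namespace Pool.Agent.N278.SV

open Pool.Agent.N520.SV

theorem t_lift : S_LIFT := by
  intro X Γ _ _ _ _ _ hcont hprop hfree k σ
  have : ContinuousConstSMul Γ X := ⟨hcont⟩
  have : ProperlyDiscontinuousSMul Γ X := by
    refine ⟨fun {K L} hK hL => ?_⟩
    refine (hprop (K ∪ L) (hK.union hL)).subset ?_
    intro γ hγ
    obtain ⟨y, ⟨x, hx, hxy⟩, hy⟩ := hγ
    refine ⟨x, Or.inl hx, ?_⟩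
    have hxy' : γ • x = y := hxy
    rw [hxy']
    exact Or.inr hy
  have : IsCancelSMul Γ X := isCancelSMul_iff_eq_one_of_smul_eq.mpr (fun γ x h => hfree γ x h)
  have hq : IsQuotientCoveringMap (Quotient.mk (MulAction.orbitRel Γ X)) Γ :=
    isQuotientCoveringMap_quotientMk_of_properlyDiscontinuousSMul
  have cov := hq.isCoveringMap
  have : ContractibleSpace (Sx k) :=
    (convex_stdSimplex ℝ (Fin (k + 1))).contractibleSpace
      ((inferInstance : Nonempty (Sx k)).elim fun x => ⟨x.1, x.2⟩)
  refine ⟨?_, ?_⟩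
  · obtain ⟨y, ⟨H⟩⟩ := id_nullhomotopic (Sx k)
    obtain ⟨e, he⟩ := hq.surjective (σ y)
    set F : C(unitInterval × Sx k, MulAction.orbitRel.Quotient Γ X) :=
      σ.comp H.symm.toContinuousMap with hF
    have hF0 : ∀ a, F (0, a) = Quotient.mk (MulAction.orbitRel Γ X)
        ((ContinuousMap.const (Sx k) e) a) := by
      intro a
      simp [hF, he]
    have hF1 : ∀ a, F (1, a) = σ a := by
      intro a
      simp [hF]
    refine ⟨(cov.liftHomotopy F (ContinuousMap.const (Sx k) e) hF0).comp
      ((ContinuousMap.const (Sx k) (1 : unitInterval)).prodMk (ContinuousMap.id _)), fun p => ?_⟩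
    have := congrFun (cov.liftHomotopy_lifts F (ContinuousMap.const (Sx k) e) hF0) (1, p)
    rw [hF1 p] at this
    exact this
  · intro s s' hs hs'
    obtain ⟨v⟩ : Nonempty (Sx k) := inferInstance
    have h1 : (Quotient.mk (MulAction.orbitRel Γ X) (s' v)) =
        Quotient.mk (MulAction.orbitRel Γ X) (s v) := (hs' v).trans (hs v).symm
    obtain ⟨γ, hγ⟩ := hq.apply_eq_iff_mem_orbit.mp h1
    refine ⟨γ, ?_⟩
    have h2 := cov.eq_of_comp_eq (g₁ := fun p => s' p) (g₂ := fun p => γ • s p) s'.continuous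
      ((hcont γ).comp s.continuous) (by
        funext p
        have e1 : Quotient.mk (MulAction.orbitRel Γ X) (γ • s p) =
          Quotient.mk (MulAction.orbitRel Γ X) (s p) := hq.map_smul γ
        simp only [Function.comp]
        rw [e1]
        exact (hs' p).trans (hs p).symm) v hγ.symm
    exact fun p => congrFun h2 p

end Pool.Agent.N278.SV
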